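import Pool.Agent.K3h28.NR.Stm

/-!
# Project NR, brick PEN0: the matrices of the pencil are linearly independent
-/

set_option autoImplicit false

open Matrix
open scoped ComplexOrder

namespace Pool.Agent.K3h60.NR

open Pool.Agent.K3h28.NR

/-- PEN0: the matrices of the pencil are linearly independent. -/
theorem t_PEN0 : S_PEN0 := by
  intro n A hn hNC p hp
  obtain ⟨a, w⟩ := p
  have hne : Nonempty (Fin n) := ⟨⟨0, hn⟩⟩
  by_cases hw : w = 0
  · subst hw
    have h := congrFun (congrFun hp ⟨0, hn⟩) ⟨0, hn⟩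
    simp only [pen, zero_smul, conjTranspose_zero, add_zero, Matrix.smul_apply, Matrix.one_apply_eq,
      smul_eq_mul, mul_one, Matrix.zero_apply, Complex.ofReal_eq_zero] at h
    rw [h]
    rfl
  · exfalso
    obtain ⟨μ, hμ⟩ := Module.End.exists_eigenvalue (Matrix.toLin' A)
    obtain ⟨x, hx⟩ := hμ.exists_hasEigenvector
    have hx1 : A *ᵥ x = μ • x := by
      have h1 := hx.apply_eq_smul
      rwa [Matrix.toLin'_apply] at h1
    have hsw : star w ≠ 0 := star_ne_zero.2 hw
    refine hNC x hx.2 μ (-((a : ℂ) + w * μ) / star w) ⟨hx1, ?_⟩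
    have h := congrArg (fun M => M *ᵥ x) hp
    simp only [pen, conjTranspose_smul, add_mulVec, smul_mulVec, one_mulVec, hx1,
      zero_mulVec] at h
    have h2 : star w • (Aᴴ *ᵥ x) = star w • ((-((a : ℂ) + w * μ) / star w) • x) := by
      rw [smul_smul, mul_div_cancel₀ _ hsw]
      have h3 : star w • (Aᴴ *ᵥ x) = -((a : ℂ) • x + w • μ • x) := by
        rw [eq_neg_iff_add_eq_zero, add_comm]
        exact h
      rw [h3, smul_smul, ← add_smul, neg_smul]
    exact smul_right_injective _ hsw h2

end Pool.Agent.K3h60.NR
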